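import Pool.Agent.H30.EE.TargetsG

/-!
# Row CHA of the board `ee_modules`: the chain (6d)
-/

set_option autoImplicit false

namespace Pool.Agent.H36.EE

open MvPolynomial _root_.SC Pool.Agent.H27.LV Pool.Agent.H17.VG Pool.Agent.H30.EE

theorem finrank_sup_Iz {K : Type} [Field K] {n r a : ℕ} (z : Fin (r + 1) → Fin (n + 1) → K)
    (T : Submodule K (MvPolynomial (Fin (n + 1)) K)) (hT : T ≤ Sd K n a) :
    Module.finrank K ↥(T ⊔ Iz a z) =
      Module.finrank K (T.map (resL z)) + Module.finrank K (Iz a z) := by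
  have h1 : Module.Finite K (Sd K n a) := Module.Finite.iff_fg.2 (homogeneousSubmodule_fg _ _ a)
  have hIS : Iz a z ≤ Sd K n a := inf_le_left
  have hIker : Iz a z ≤ LinearMap.ker (resL z) := inf_le_right
  obtain ⟨W, hW⟩ : ∃ W : Submodule K (MvPolynomial (Fin (n + 1)) K), W = T ⊔ Iz a z := ⟨_, rfl⟩
  have hWS : W ≤ Sd K n a := by
    rw [hW]
    exact sup_le hT hIS
  have hIW : Iz a z ≤ W := by
    rw [hW]
    exact le_sup_right
  rw [← hW]
  have h2 : Module.Finite K W := Submodule.finiteDimensional_of_le hWS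
  have h3 := LinearMap.finrank_range_add_finrank_ker ((resL z).domRestrict W)
  have h4 : LinearMap.range ((resL z).domRestrict W) = T.map (resL z) := by
    rw [LinearMap.range_domRestrict, hW, Submodule.map_sup]
    have h5 : (Iz a z).map (resL z) = ⊥ := by
      rw [Submodule.eq_bot_iff]
      rintro _ ⟨G, hG, rfl⟩
      exact hIker hG
    rw [h5, sup_bot_eq]
  have h5 : LinearMap.ker ((resL z).domRestrict W) = (Iz a z).comap W.subtype := by
    ext w
    constructor
    · intro h
      exact Submodule.mem_inf.2 ⟨hWS w.2, h⟩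
    · intro h
      exact hIker h
  rw [h4, h5] at h3
  rw [← h3, (Submodule.comapSubtypeEquivOfLe hIW).finrank_eq]

theorem pf_CHA (hRMD : T_RMD) (hCH1 : T_CH1) (hCH2 : T_CH2) : T_CHA := by
  intro k K _ _ _ _ _ _ htr n r a z hr hz T hT m' hm
  obtain ⟨-, h1, h2⟩ := hRMD K n r (a + 2) z hz
  have hTS : T ≤ Sd K n (a + 2) := hT.trans inf_le_left
  have h3 := finrank_sup_Iz z T hTS
  have h4 : Module.finrank K ↥(T ⊔ Iz (a + 2) z) + m' =
      Module.finrank K (Md (a + 2) (z 0)) := by
    rw [h3, h1]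
    omega
  have h5 := hCH2 k K htr n r (a + 2) z hr (by omega) hz (T ⊔ Iz (a + 2) z) (sup_le hT h2)
    le_sup_right m' h4
  have h6 := hCH1 k K htr n r a z hz T hTS
  have h7 : ((Module.finrank K ↥(T ⊔ Iz (a + 2) z) : ℤ) - Module.finrank K T) =
      (Module.finrank K (Md (a + 2) (z 0)) : ℤ) - Module.finrank K T - m' := by
    rw [← h4]
    push_cast
    ring
  rw [h7] at h6
  linarith

end Pool.Agent.H36.EE
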