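import Pool.Agent.H30.EE.TargetsI

/-!
# Row ICD of the board `ee_modules`: change of the coordinates modulo `L`
-/

set_option autoImplicit false

namespace Pool.Agent.H36.EE

open MvPolynomial _root_.SC Pool.Agent.H27.LV Pool.Agent.H17.VG Pool.Agent.H30.EE Matrix

variable {K : Type} [Field K] {n r : ℕ}

theorem cht_inj {L : Submodule K (Fin (n + 1) → K)} {J : Fin (r + 1) → Fin (n + 1)}
    {z : Fin (r + 1) → Fin (n + 1) → K} (h : Cht L J z) : Function.Injective J := by
  intro i j hij
  by_contra hne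
  have h1 := h.id i i
  have h2 := h.id i j
  rw [if_pos rfl] at h1
  rw [if_neg hne, ← hij, h1] at h2
  exact one_ne_zero h2

theorem cht_exp {L : Submodule K (Fin (n + 1) → K)} {J : Fin (r + 1) → Fin (n + 1)}
    {z : Fin (r + 1) → Fin (n + 1) → K} (h : Cht L J z) {w : Fin (n + 1) → K} (hw : w ∈ L)
    (l : Fin (n + 1)) : w l = ∑ j, w (J j) * z j l := by
  rw [← h.span] at hw
  obtain ⟨c, hc⟩ := (Submodule.mem_span_range_iff_exists_fun K).1 hw
  have h1 : ∀ j, w (J j) = c j := by
    intro j
    rw [← hc, Finset.sum_apply, Finset.sum_eq_single j]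
    · rw [Pi.smul_apply, h.id, if_pos rfl, smul_eq_mul, mul_one]
    · intro b _ hb
      rw [Pi.smul_apply, h.id, if_neg hb, smul_zero]
    · intro hj
      exact absurd (Finset.mem_univ _) hj
  simp only [h1]
  rw [← hc, Finset.sum_apply]
  rfl

/-- the columns in the order given by the chart -/
noncomputable def phe (J : Fin (r + 1) → Fin (n + 1)) (hJ : Function.Injective J) :
    Fin (r + 1) ⊕ {j : Fin (n + 1) // ∀ i, J i ≠ j} ≃ Fin (n + 1) :=
  Equiv.ofBijective (Sum.elim J Subtype.val) (by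
    constructor
    · rintro (a | a) (b | b) hab
      · exact congrArg Sum.inl (hJ hab)
      · exact absurd hab (b.2 a)
      · exact absurd hab.symm (a.2 b)
      · exact congrArg Sum.inr (Subtype.ext hab)
    · intro j
      by_cases h : ∃ i, J i = j
      · obtain ⟨i, hi⟩ := h
        exact ⟨Sum.inl i, hi⟩
      · push Not at h
        exact ⟨Sum.inr ⟨j, h⟩, rfl⟩)

theorem pf_ICD : T_ICD := by
  intro K _ n r L J J' z z' hz hz' e1
  have hJ := cht_inj hz
  have hJ' := cht_inj hz'
  classical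
  let M : Matrix (Fin (r + 1) ⊕ {j : Fin (n + 1) // ∀ i, J' i ≠ j}) (Fin (n + 1)) K :=
    Matrix.of fun a j => Sum.elim (fun i => z i j) (fun l => (Pi.single (e1 l).1 1 : Fin (n + 1) → K) j) a
  let σ : Equiv.Perm (Fin (r + 1) ⊕ {j : Fin (n + 1) // ∀ i, J' i ≠ j}) :=
    ((Equiv.refl (Fin (r + 1))).sumCongr e1).trans ((phe J hJ).trans (phe J' hJ').symm)
  let M1 := M.submatrix id (phe J' hJ')
  have hM2 : (M1.submatrix id σ).det = 1 := by
    have h : M1.submatrix id σ = Matrix.fromBlocks (1 : Matrix (Fin (r + 1)) (Fin (r + 1)) K)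
        (Matrix.of fun i (l : {j : Fin (n + 1) // ∀ i, J' i ≠ j}) => z i (e1 l).1) 0 1 := by
      ext (a | a) (b | b)
      · have : M1.submatrix id σ (Sum.inl a) (Sum.inl b) = z a (J b) := by
          change z a ((phe J' hJ') ((phe J' hJ').symm ((phe J hJ) (Sum.inl b)))) = _
          rw [Equiv.apply_symm_apply]
          rfl
        rw [this, hz.id, Matrix.fromBlocks_apply₁₁, Matrix.one_apply]
      · have : M1.submatrix id σ (Sum.inl a) (Sum.inr b) = z a (e1 b).1 := by
          change z a ((phe J' hJ') ((phe J' hJ').symm ((phe J hJ) (Sum.inr (e1 b))))) = _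
          rw [Equiv.apply_symm_apply]
          rfl
        rw [this]
        rfl
      · have : M1.submatrix id σ (Sum.inr a) (Sum.inl b) =
            (Pi.single (e1 a).1 1 : Fin (n + 1) → K) (J b) := by
          change (Pi.single (e1 a).1 1 : Fin (n + 1) → K)
            ((phe J' hJ') ((phe J' hJ').symm ((phe J hJ) (Sum.inl b)))) = _
          rw [Equiv.apply_symm_apply]
          rfl
        rw [this, Pi.single_eq_of_ne ((e1 a).2 b)]
        rfl
      · have : M1.submatrix id σ (Sum.inr a) (Sum.inr b) =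
            (Pi.single (e1 a).1 1 : Fin (n + 1) → K) (e1 b).1 := by
          change (Pi.single (e1 a).1 1 : Fin (n + 1) → K)
            ((phe J' hJ') ((phe J' hJ').symm ((phe J hJ) (Sum.inr (e1 b))))) = _
          rw [Equiv.apply_symm_apply]
          rfl
        rw [this, Matrix.fromBlocks_apply₂₂]
        by_cases hab : a = b
        · subst hab
          rw [Pi.single_eq_same, Matrix.one_apply_eq]
        · rw [Matrix.one_apply_ne hab, Pi.single_eq_of_ne]
          intro h
          exact hab (e1.injective (Subtype.ext h.symm))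
    rw [h, Matrix.det_fromBlocks_zero₂₁, Matrix.det_one, Matrix.det_one, one_mul]
  have hM1 : M1.det = (Matrix.of fun i j : Fin (r + 1) => z i (J' j)).det *
      (Matrix.of fun (j l : {j : Fin (n + 1) // ∀ i, J' i ≠ j}) =>
      fq J' z' (Pi.single (e1 l).1 1) j.1).det := by
    have h : M1 = Matrix.fromBlocks (Matrix.of fun i j : Fin (r + 1) => z i (J' j)) 0
        (Matrix.of fun (l : {j : Fin (n + 1) // ∀ i, J' i ≠ j}) (j : Fin (r + 1)) =>
          (Pi.single (e1 l).1 1 : Fin (n + 1) → K) (J' j))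
        (Matrix.of fun (j l : {j : Fin (n + 1) // ∀ i, J' i ≠ j}) =>
          fq J' z' (Pi.single (e1 l).1 1) j.1)ᵀ *
        Matrix.fromBlocks (1 : Matrix (Fin (r + 1)) (Fin (r + 1)) K)
        (Matrix.of fun i (l : {j : Fin (n + 1) // ∀ i, J' i ≠ j}) => z' i l.1) 0 1 := by
      rw [Matrix.fromBlocks_multiply, Matrix.mul_one, Matrix.zero_mul, Matrix.mul_zero,
        Matrix.mul_one, Matrix.mul_one, Matrix.mul_one, add_zero, add_zero, add_zero]
      ext (a | a) (b | b)
      · rfl
      · rw [Matrix.fromBlocks_apply₁₂, Matrix.mul_apply]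
        have h1 : z a ∈ L := by
          rw [← hz.span]
          exact Submodule.subset_span ⟨a, rfl⟩
        exact cht_exp hz' h1 b.1
      · rfl
      · rw [Matrix.fromBlocks_apply₂₂, Matrix.add_apply, Matrix.mul_apply]
        change (Pi.single (e1 a).1 1 : Fin (n + 1) → K) b.1 =
          ∑ j, (Pi.single (e1 a).1 1 : Fin (n + 1) → K) (J' j) * z' j b.1 +
          ((Pi.single (e1 a).1 1 : Fin (n + 1) → K) b.1 -
            ∑ j, (Pi.single (e1 a).1 1 : Fin (n + 1) → K) (J' j) * z' j b.1)
        ring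
    rw [h, Matrix.det_mul, Matrix.det_fromBlocks_zero₁₂, Matrix.det_fromBlocks_zero₂₁,
      Matrix.det_one, Matrix.det_one, one_mul, mul_one, Matrix.det_transpose]
  refine ⟨(Matrix.of fun i j : Fin (r + 1) => z i (J' j)).det *
      (Matrix.of fun (j l : {j : Fin (n + 1) // ∀ i, J' i ≠ j}) =>
      fq J' z' (Pi.single (e1 l).1 1) j.1).det, ?_, rfl⟩
  rw [← hM1]
  rw [Matrix.det_permute'] at hM2
  have hs : (((Equiv.Perm.sign σ : ℤˣ) : ℤ) : K) ^ 2 = 1 := by
    rcases Int.units_eq_one_or (Equiv.Perm.sign σ) with h | h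
    · rw [h]
      simp
    · rw [h]
      simp
  calc M1.det ^ 2 = (((Equiv.Perm.sign σ : ℤˣ) : ℤ) : K) ^ 2 * M1.det ^ 2 := by
        rw [hs, one_mul]
    _ = ((((Equiv.Perm.sign σ : ℤˣ) : ℤ) : K) * M1.det) ^ 2 := by ring
    _ = 1 := by rw [hM2, one_pow]

end Pool.Agent.H36.EE
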