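import Pool.Agent.H36.EE.ICD
import Pool.Agent.H96.EE.PBA

/-!
# Row ICE of the board `ee_modules`: charts exist, at each place there is an integral chart
-/

set_option autoImplicit false

namespace Pool.Agent.H36.EE

open MvPolynomial _root_.SC Pool.Agent.H27.LV Pool.Agent.H17.VG Pool.Agent.H30.EE Matrix

variable {k K : Type} [Field k] [Field K] [Algebra k K] {n r : ℕ}

theorem cht_mnr {L : Submodule K (Fin (n + 1) → K)} {J : Fin (r + 1) → Fin (n + 1)}
    {z : Fin (r + 1) → Fin (n + 1) → K} (h : Cht L J z) : mnr z J = 1 := by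
  have h1 : (Matrix.of fun a b : Fin (r + 1) => z a (J b)) = 1 := by
    ext a b
    rw [Matrix.of_apply, h.id, Matrix.one_apply]
  unfold mnr
  rw [h1, Matrix.det_one]

theorem cht_ne {L : Submodule K (Fin (n + 1) → K)} {J : Fin (r + 1) → Fin (n + 1)}
    {z : Fin (r + 1) → Fin (n + 1) → K} (h : Cht L J z) : mnr z ≠ 0 := by
  intro h0
  have h1 := cht_mnr h
  rw [h0] at h1
  exact zero_ne_one h1

theorem exists_cht {v : DV k K} {L : Submodule K (Fin (n + 1) → K)} (hMO : T_MO)
    (b : Fin (r + 1) → Fin (n + 1) → K) (hb : Prm v b)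
    (hspan : Submodule.span K (Set.range b) = L) :
    ∃ (J : Fin (r + 1) → Fin (n + 1)) (z : Fin (r + 1) → Fin (n + 1) → K),
      Cht L J z ∧ ∀ i j, ge v 0 (z i j) := by
  classical
  obtain ⟨-, ⟨J, hJ, hJ0⟩, -, -, -⟩ := (hMO k K v (Fin (r + 1) → Fin (n + 1)) (mnr b)).2 hb.ne
  rw [hb.ord] at hJ0
  obtain ⟨B, hB⟩ : ∃ B : Matrix (Fin (r + 1)) (Fin (r + 1)) K,
    B = Matrix.of fun a c => b a (J c) := ⟨_, rfl⟩
  have hdet : B.det = mnr b J := by rw [hB]; rfl
  have hunit : IsUnit B.det := isUnit_iff_ne_zero.2 (by rw [hdet]; exact hJ)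
  obtain ⟨z, hz⟩ : ∃ z : Fin (r + 1) → Fin (n + 1) → K,
    z = fun i l => ∑ a, B⁻¹ i a * b a l := ⟨_, rfl⟩
  have hBz : ∀ a l, b a l = ∑ i, B a i * z i l := by
    intro a l
    have h1 : B * (Matrix.of z) = Matrix.of b := by
      have h2 : (Matrix.of z) = B⁻¹ * Matrix.of b := by
        ext i l
        rw [hz, Matrix.mul_apply]
        rfl
      rw [h2, ← Matrix.mul_assoc, Matrix.mul_nonsing_inv _ hunit, Matrix.one_mul]
    have h3 := congrFun (congrFun h1 a) l
    rw [Matrix.mul_apply] at h3
    exact h3.symm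
  refine ⟨J, z, ⟨?_, ?_⟩, ?_⟩
  · rw [← hspan]
    apply le_antisymm
    · rw [Submodule.span_le]
      rintro _ ⟨i, rfl⟩
      have h1 : z i = ∑ a, B⁻¹ i a • b a := by
        funext l
        rw [hz, Finset.sum_apply]
        rfl
      rw [h1]
      exact Submodule.sum_mem _ fun a _ => Submodule.smul_mem _ _ (Submodule.subset_span ⟨a, rfl⟩)
    · rw [Submodule.span_le]
      rintro _ ⟨a, rfl⟩
      have h1 : b a = ∑ i, B a i • z i := by
        funext l
        rw [hBz a l, Finset.sum_apply]
        rfl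
      rw [h1]
      exact Submodule.sum_mem _ fun a _ => Submodule.smul_mem _ _ (Submodule.subset_span ⟨a, rfl⟩)
  · intro i j
    have h1 : z i (J j) = (B⁻¹ * B) i j := by
      rw [hz, Matrix.mul_apply, hB]
      rfl
    rw [h1, Matrix.nonsing_inv_mul _ hunit, Matrix.one_apply]
  · intro i l
    rw [hz]
    refine ge_sum v _ _ _ fun a _ => ?_
    have h1 : ge v 0 (B⁻¹ i a) := by
      rw [Matrix.inv_def, Matrix.smul_apply, Ring.inverse_eq_inv', smul_eq_mul]
      have h2 : ge v 0 (B.det⁻¹) := by
        right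
        rw [v.ord_inv, hdet, hJ0]
        rfl
      have h3 : ge v 0 (B.adjugate i a) := by
        rw [Matrix.adjugate_apply]
        refine Pool.Agent.H96.EE.ge_det0 _ fun p q => ?_
        by_cases hp : p = a
        · subst hp
          rw [Matrix.updateRow_self]
          by_cases hq : q = i
          · subst hq
            rw [Pi.single_eq_same]
            exact ge_one v
          · rw [Pi.single_eq_of_ne hq]
            exact ge_zero v 0
        · rw [Matrix.updateRow_ne hp, hB]
          exact hb.int p (J q)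
      have h4 := h2.mul h3
      rwa [add_zero] at h4
    have h5 := h1.mul (hb.int a l)
    rwa [add_zero] at h5

theorem pf_ICE (hMO : T_MO) (hHG : T_HG) (hCBM : T_CBM) (hPBA : T_PBA) (hDGB : T_DGB) :
    T_ICE := by
  intro k K _ _ _ _ _ _ htr n r L hL
  refine ⟨fun v => ?_, ?_⟩
  · obtain ⟨b0, hb0⟩ : ∃ b0 : Fin 0 → Fin (n + 1) → K, b0 = Fin.elim0 := ⟨_, rfl⟩
    have h1 : mnr b0 = fun _ => 1 := by
      funext J
      unfold mnr
      exact Matrix.det_fin_zero
    have hb : Prm v b0 := by
      refine Pool.Agent.H96.EE.Prm_of_unit hMO b0 (fun a => a.elim0) Fin.elim0 ?_ ?_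
      · rw [h1]
        exact one_ne_zero
      · rw [h1]
        exact v.ord_one
    have hle : Submodule.span K (Set.range b0) ≤ L := by
      rw [Submodule.span_le]
      rintro _ ⟨a, rfl⟩
      exact a.elim0
    obtain ⟨m', c, hp, hspan⟩ := hPBA k K htr v (Fin (n + 1)) 0 b0 L hb hle
    have hind : LinearIndependent K (Fin.append b0 c) := (hCBM K _ _ _).1.2 hp.ne
    have hcard : 0 + m' = r + 1 := by
      have h2 := finrank_span_eq_card hind
      rw [hspan, hL, Fintype.card_fin] at h2
      omega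
    have hp2 := Pool.Agent.H96.EE.Prm_cast hcard.symm hp
    refine exists_cht hMO _ hp2 ?_
    rw [← hspan]
    congr 1
    exact (finCongr hcard.symm).surjective.range_comp _
  · intro J z hz
    have hind : LinearIndependent K z := (hCBM K _ _ _).1.2 (cht_ne hz)
    refine ⟨?_, ?_⟩
    · have h1 := hDGB k K htr (Fin (n + 1)) (r + 1) z hind
      rw [hz.span] at h1
      rw [h1]
      unfold hgt
      rw [neg_neg]
    · intro v J' z' hz' hint
      obtain ⟨B, hB⟩ : ∃ B : Matrix (Fin (r + 1)) (Fin (r + 1)) K,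
        B = Matrix.of fun i j : Fin (r + 1) => z i (J' j) := ⟨_, rfl⟩
      rw [← hB]
      have h1 : mnr z = B.det • mnr z' := by
        rw [← (hCBM K (r + 1) (Fin (n + 1)) z').2 B]
        congr 1
        funext a l
        have h2 : z a ∈ L := by
          rw [← hz.span]
          exact Submodule.subset_span ⟨a, rfl⟩
        rw [cht_exp hz' h2 l, hB]
        rfl
      have h3 : B.det ≠ 0 := by
        intro h0
        rw [h0, zero_smul] at h1
        exact cht_ne hz h1
      refine ⟨h3, ?_⟩
      have h4 : Prm v z' := by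
        refine Pool.Agent.H96.EE.Prm_of_unit hMO z' hint J' ?_ ?_
        · rw [cht_mnr hz']
          exact one_ne_zero
        · rw [cht_mnr hz']
          exact v.ord_one
      rw [h1, ((hMO k K v _ (mnr z')).2 (cht_ne hz')).2.2.2.1 B.det h3, h4.ord, add_zero]

end Pool.Agent.H36.EE
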