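import Pool.Agent.H30.EE.TargetsG
import Pool.Agent.H97.VG.OP

/-!
# Row RG1 of the board `ee_modules`: a relation
-/

set_option autoImplicit false

namespace Pool.Agent.H36.EE

open MvPolynomial _root_.SC Pool.Agent.H27.LV Pool.Agent.H17.VG Pool.Agent.H30.EE

section

variable {R K : Type} [Field R] [Field K] [Algebra R K] {n r : ℕ}

theorem dA_add (z a b : Fin (r + 1) → Fin (n + 1) → K) (G : MvPolynomial (Fin (n + 1)) K) :
    dA z (a + b) G = dA z a G + dA z b G := by
  unfold dA
  rw [← Finset.sum_add_distrib]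
  refine Finset.sum_congr rfl fun j _ => ?_
  rw [← mul_add]
  congr 1
  unfold resC
  rw [← map_add]
  congr 1
  unfold dir
  rw [← Finset.sum_add_distrib]
  refine Finset.sum_congr rfl fun i _ => ?_
  rw [Pi.add_apply, Pi.add_apply, map_add, add_mul]

theorem dA_smul (z a : Fin (r + 1) → Fin (n + 1) → K) (c : K) (G : MvPolynomial (Fin (n + 1)) K) :
    dA z (c • a) G = c • dA z a G := by
  unfold dA
  rw [Finset.smul_sum]
  refine Finset.sum_congr rfl fun j _ => ?_
  rw [← mul_smul_comm]
  congr 1
  unfold resC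
  rw [← map_smul]
  congr 1
  unfold dir
  rw [Finset.smul_sum]
  refine Finset.sum_congr rfl fun i _ => ?_
  rw [Pi.smul_apply, Pi.smul_apply, smul_eq_mul, map_mul, smul_eq_C_mul, mul_assoc]

theorem exists_mat {z : Fin (r + 1) → Fin (n + 1) → K} (hz : LinearIndependent K z)
    (a : Fin (r + 1) → Fin (n + 1) → K) :
    ∃ A : Matrix (Fin (n + 1)) (Fin (n + 1)) K, (∀ j, Matrix.mulVec A (z j) = a j) ∧
      ∀ w, Matrix.mulVec A w ∈ Submodule.span K (Set.range a) := by
  classical
  have hinj : LinearMap.ker (Fintype.linearCombination K z) = ⊥ := by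
    rw [LinearMap.ker_eq_bot]
    exact hz.fintypeLinearCombination_injective
  obtain ⟨g, hg⟩ := LinearMap.exists_leftInverse_of_injective _ hinj
  refine ⟨LinearMap.toMatrix' ((Fintype.linearCombination K a) ∘ₗ g), fun j => ?_, fun w => ?_⟩
  · rw [LinearMap.toMatrix'_mulVec, LinearMap.comp_apply]
    have h := LinearMap.congr_fun hg (Pi.single j 1)
    have h1 : g (z j) = Pi.single j 1 := by
      simpa [Fintype.linearCombination_apply, Pi.single_apply] using h
    rw [h1]
    simp [Fintype.linearCombination_apply, Pi.single_apply]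
  · rw [LinearMap.toMatrix'_mulVec, LinearMap.comp_apply, Fintype.linearCombination_apply]
    exact Submodule.sum_mem _ fun i _ => Submodule.smul_mem _ _ (Submodule.subset_span ⟨i, rfl⟩)

theorem resC_coeff_zero (z : Fin (r + 1) → Fin (n + 1) → K) (G : MvPolynomial (Fin (n + 1)) K) :
    (resC z G).coeff 0 = eval (z 0) G := by
  unfold resC
  induction G using MvPolynomial.induction_on with
  | C a =>
    rw [aeval_C, eval_C]
    exact Polynomial.coeff_C_zero
  | add p q hp hq => rw [map_add, Polynomial.coeff_add, hp, hq, map_add]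
  | mul_X p i hp =>
    rw [map_mul, Polynomial.mul_coeff_zero, hp, map_mul, eval_X, aeval_X,
      Polynomial.finsetSum_coeff]
    congr 1
    rw [Finset.sum_eq_single 0]
    · rw [Fin.val_zero, pow_zero, mul_one, Polynomial.coeff_C_zero]
    · intro j _ hj
      rw [Polynomial.mul_coeff_zero, Polynomial.coeff_X_pow, if_neg, mul_zero]
      intro h
      exact hj (Fin.ext h.symm)
    · intro h
      exact absurd (Finset.mem_univ _) h

theorem opV_zero_mat (A : Matrix (Fin (n + 1)) (Fin (n + 1)) K) (w : Fin (n + 1) → K) :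
    opV ((0, A) : Op R K n) w = -Matrix.mulVec A w := by
  funext i
  change (0 : Derivation R K K) (w i) - ∑ j, A i j * w j = _
  rw [Derivation.zero_apply, zero_sub]
  rfl

theorem dA_coeff_zero (z a : Fin (r + 1) → Fin (n + 1) → K) (h0 : a 0 = 0)
    (G : MvPolynomial (Fin (n + 1)) K) : (dA z a G).coeff 0 = 0 := by
  unfold dA
  rw [Polynomial.finsetSum_coeff]
  refine Finset.sum_eq_zero fun j _ => ?_
  rw [Polynomial.mul_coeff_zero]
  by_cases hj : j = 0
  · subst hj
    have h1 : dir (a 0) G = 0 := by
      unfold dir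
      refine Finset.sum_eq_zero fun i _ => ?_
      rw [h0, Pi.zero_apply, map_zero, zero_mul]
    rw [h1]
    unfold resC
    rw [map_zero, Polynomial.coeff_zero, mul_zero]
  · rw [Polynomial.coeff_X_pow, if_neg, zero_mul]
    intro h
    exact hj (Fin.ext h.symm)

theorem finite_TL (e : ℕ) (F : MvPolynomial (Fin (n + 1)) K) (x : Fin (n + 1) → K)
    (L : Submodule K (Fin (n + 1) → K)) : Module.Finite K (TL R e F x L) := by
  have h1 : Module.Finite K (Sd K n e) := Module.Finite.iff_fg.2 (homogeneousSubmodule_fg _ _ e)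
  have h2 : TL R e F x L ≤ Sd K n e := by
    unfold TL
    rw [Submodule.span_le]
    rintro G ⟨hG, -⟩
    exact (Submodule.mem_inf.1 hG).1
  exact Submodule.finiteDimensional_of_le h2

end

theorem pf_RG1 (hRG0 : T_RG0) : T_RG1 := by
  intro R K _ _ _ _ n e r F z hF hz hlt
  classical
  obtain ⟨T, hT⟩ : ∃ T : Submodule K (Polynomial K),
    T = (TL R (e + 1) F (z 0) (Submodule.span K (Set.range z))).map (resL z) := ⟨_, rfl⟩
  rw [← hT] at hlt
  have hTfin : Module.Finite K T := by
    have := finite_TL (R := R) (e + 1) F (z 0) (Submodule.span K (Set.range z))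
    rw [hT]
    infer_instance
  let aL : (Fin r × Fin (r + 1) → K) →ₗ[K] (Fin (r + 1) → Fin (n + 1) → K) :=
    { toFun := fun c j => Fin.cases 0 (fun j' => ∑ i, c (j', i) • z i) j
      map_add' := by
        intro c c'
        funext j
        refine Fin.cases ?_ (fun j' => ?_) j
        · simp
        · simp [add_smul, Finset.sum_add_distrib]
      map_smul' := by
        intro t c
        funext j
        refine Fin.cases ?_ (fun j' => ?_) j
        · simp
        · simp [mul_smul, Finset.smul_sum] }
  have ha0 : ∀ c, aL c 0 = 0 := fun c => rfl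
  have has : ∀ c (j' : Fin r), aL c j'.succ = ∑ i, c (j', i) • z i := fun c j' => rfl
  have hspan : ∀ c j, aL c j ∈ Submodule.span K (Set.range z) := by
    intro c j
    refine Fin.cases ?_ (fun j' => ?_) j
    · rw [ha0]
      exact Submodule.zero_mem _
    · rw [has]
      exact Submodule.sum_mem _ fun i _ => Submodule.smul_mem _ _ (Submodule.subset_span ⟨i, rfl⟩)
  have hmem : ∀ c, dA z (aL c) F ∈ T := by
    intro c
    obtain ⟨A, hA1, hA2⟩ := exists_mat hz (aL c)
    have h1 : resC z (opF ((0, A) : Op R K n) F) = dA z (aL c) F :=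
      (hRG0 R K n r z (aL c) F F).2.2.2.2 A hA1
    rw [hT, ← h1]
    refine ⟨opF ((0, A) : Op R K n) F, Submodule.subset_span ⟨?_, (0, A), rfl, ⟨0, ?_⟩, ?_⟩, rfl⟩
    · refine Submodule.mem_inf.2 ⟨(mem_homogeneousSubmodule _ _).2
        (Pool.Agent.H97.VG.opF_homog _ F (e + 1) hF), ?_⟩
      rw [LinearMap.mem_ker, AlgHom.toLinearMap_apply, aeval_eq_eval]
      rw [← resC_coeff_zero, h1]
      exact dA_coeff_zero z _ (ha0 c) F
    · rw [opV_zero_mat, hA1, ha0, zero_smul, neg_zero]
    · intro w _
      rw [opV_zero_mat]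
      refine Submodule.neg_mem _ (Submodule.span_le.2 ?_ (hA2 w))
      rintro _ ⟨j, rfl⟩
      exact hspan c j
  let Φ : (Fin r × Fin (r + 1) → K) →ₗ[K] T :=
    { toFun := fun c => ⟨dA z (aL c) F, hmem c⟩
      map_add' := by
        intro c c'
        apply Subtype.ext
        change dA z (aL (c + c')) F = dA z (aL c) F + dA z (aL c') F
        rw [map_add, dA_add]
      map_smul' := by
        intro t c
        apply Subtype.ext
        change dA z (aL (t • c)) F = t • dA z (aL c) F
        rw [map_smul, dA_smul] }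
  have hker : LinearMap.ker Φ ≠ ⊥ := by
    apply LinearMap.ker_ne_bot_of_finrank_lt
    rw [Module.finrank_fintype_fun_eq_card, Fintype.card_prod, Fintype.card_fin, Fintype.card_fin]
    exact hlt
  obtain ⟨c, hc, hc0⟩ := (Submodule.ne_bot_iff _).1 hker
  refine ⟨aL c, ?_, ha0 c, hspan c, ?_⟩
  · intro h
    apply hc0
    funext ⟨j', i⟩
    have h1 := congrFun h j'.succ
    rw [has] at h1
    exact Fintype.linearIndependent_iff.1 hz _ h1 i
  · exact congrArg Subtype.val (LinearMap.mem_ker.1 hc)

end Pool.Agent.H36.EE
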